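import Pool.Agent.H27.QF

namespace Pool.Agent.Results.MP_b125a4_nt.Guo
open Finset Polynomial Pool.Agent.H27.QC Pool.Agent.H27.QC.Loc Pool.Agent.H27.QD Pool.Agent.H27.QF

/-- the shifted factorial `(a; b)_k` -/
def poch {K : Type*} [Field K] (a b : K) (k : ℕ) : K := ∏ i ∈ range k, (1 - a * b ^ i)

/-- the `q`-integer `[N]` -/
def qint {K : Type*} [Field K] (q : K) (N : ℕ) : K := (1 - q ^ N) / (1 - q)

/-- the integer exponent `e_n(k)` -/
def ex (n k : ℕ) : ℤ := k * ((n : ℤ) ^ 2 - 2 * n * k - n - 2) / 4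

/-- `S_n(q)` -/
def S {K : Type*} [Field K] (q : K) (n : ℕ) : K := ∑ k ∈ range ((n - 1) / 2 + 1),
  qint q (4 * k + 1) * (poch q (q ^ 2) k / poch (q ^ 2) (q ^ 2) k) ^ 3 * q ^ ex n k

/-- divisibility by `Φ_n(q) ^ 2`, read in lowest terms -/
def Zero2 (n : ℕ) (A : RatFunc ℚ) : Prop :=
  cyclotomic n ℚ ^ 2 ∣ A.num ∧ IsCoprime A.denom (cyclotomic n ℚ ^ 2)

variable {K : Type*} [Field K]

theorem poch_rho (q : K) (k : ℕ) :
    poch q (q ^ 2) k / poch (q ^ 2) (q ^ 2) k = rho (q ^ 1) k 1 := by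
  rw [rho, prod_div_distrib, poch, poch]
  congr 1 <;> exact prod_congr rfl fun i _ => by ring

def tt (q : K) (h b : ℕ) (y : K) : K :=
  (1 - y ^ 2 * q ^ (4 * b + 1)) * rho (q ^ 1) b y ^ 3 * (q ^ ((h + 1) * b))⁻¹

def MM (q : K) (h b : ℕ) (y : K) : K := ∏ i ∈ range b, (1 - y * q ^ (h + 2 + 2 * i))

variable [CharZero K] {L : Loc K} {s : ℕ} (hn : L.n = 2 * (2 * s) + 1)
include hn

theorem tt_TG {b : ℕ} (hb : b < L.n) : L.TG (tt L.q (2 * s) b) :=
  (((TG.const (one_mem _)).sub ((TG.id.pow 2).mul (TG.const (L.qp _)))).mul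
    ((rho_TG hn (hs1 hn) hb).pow 3)).mul (TG.const (U.q.pow _).2.1)

theorem tt_refl {b d : ℕ} (hd : d + b = 2 * s) :
    L.E 1 (tt L.q (2 * s) d 1) (-tt L.q (2 * s) b 1) := by
  have q0 := L.q0
  have Q := N3.nr (N3.qn (L := L))
  have a0 := rho_half hn (hs1 hn)
  have a2 := ((Nr.qn (L := L) (2 + b)).mul (Nr.qn (2 * (2 * s) + 1)).inv).near
  rw [(even_two_mul s).neg_one_pow] at a0
  have hT := tt_TG hn (b := b) (by omega)
  refine ((((a0.pow (one_mem _) 3).mul a2 (pow_mem (one_mem _) 3) (one_mem _)).mul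
    (hT.near Q.inv.1 Q.inv.2) (mul_mem (pow_mem (one_mem _) 3) (one_mem _)) hT.1).neg).of_sub ?_
  generalize tt L.q (2 * s) b 1 = t
  rw [tt, tt, rho_reflect hn (hs1 hn) hd (z := (L.q ^ L.n)⁻¹) Nr.one (by field_simp), hn]
  generalize rho (L.q ^ 1) (2 * s) 1 = A
  generalize rho (L.q ^ 1) b (L.q ^ (2 * (2 * s) + 1))⁻¹ = B
  rw [← hd]
  field_simp
  ring

theorem six (hs : 0 < s) {u c : K} (hu : Nr L u c)
    (h3 : ∀ i, 1 - (u * L.q ^ L.n)⁻¹ * L.q ^ (2 * s + 2 + 2 * i) ≠ 0) :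
    L.E 2 (∑ b ∈ range (2 * s + 1), tt L.q (2 * s) b 1 * (MM L.q (2 * s) b u
      / MM L.q (2 * s) b (u * L.q ^ L.n)⁻¹ * u⁻¹ ^ b)) 0 := by
  have q0 := L.q0
  have u0 := hu.U.2.2
  have Q := N3.nr (N3.qn (L := L))
  have hQ : L.q ^ L.n = L.q * (L.q ^ 2) ^ (2 * s) := by rw [hn]; ring
  have e2 : ∀ i, 1 - L.q * (L.q ^ 2 * (L.q ^ 2) ^ i) / (L.q * L.q ^ L.n)
      = 1 - (L.q ^ L.n)⁻¹ * L.q ^ (2 * i + 2) := fun i => by field_simp; ring
  have e3 : ∀ i, 1 - L.q * (u * L.q ^ (2 * s + 2))⁻¹ * (L.q ^ 2 * (L.q ^ 2) ^ i)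
      = 1 - (u * L.q ^ L.n)⁻¹ * L.q ^ (2 * s + 2 + 2 * i) := fun i => by rw [hn]; field_simp; ring
  have nM : ∀ i, i < 2 * s → ¬ L.n ∣ 2 * s + 2 + 2 * i := by
    rintro i hi ⟨c, hc⟩
    rcases c with _ | _ | c
    · omega
    · omega
    · rw [hn] at hc; nlinarith
  have hM : ∀ b, b ≤ 2 * s → ∀ y c, Nr L y c → L.U (MM L.q (2 * s) b y) := fun b hb y c hy =>
    U.prod _ _ fun i hi => hy.lin (nM i (by have := mem_range.mp hi; omega))
  have := six5 L.q (L.q * L.q ^ L.n) (u * L.q ^ (2 * s + 2))⁻¹ (L.q ^ 2) (pow_ne_zero _ q0)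
    (mul_ne_zero q0 (pow_ne_zero _ q0))
    (fun i => by rw [← pow_succ', ← pow_mul]; exact L.ne _ (by omega))
    (fun i h0 => by
      have : L.q ^ L.n = L.q ^ (2 * i + 2) := by field_simp at h0; linear_combination h0
      have := q_inj this; omega) (fun i => by rw [e3]; exact h3 i)
    (fun i => by
      have := L.ne (2 * i + 3) (by omega)
      rwa [show L.q ^ (2 * i + 3) = L.q * (L.q ^ 2 * (L.q ^ 2) ^ i) by ring] at this) (2 * s)
  refine E.trans (E.sum (g := fun b => (1 - L.q * ((L.q ^ 2) ^ b) ^ 2) * uu L.q (L.q * L.q ^ L.n)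
    (u * L.q ^ (2 * s + 2))⁻¹ (L.q ^ 2) ((L.q ^ 2) ^ (2 * s)) b) _ fun b hb => ?_) ?_
  · have hb' : b ≤ 2 * s := by have := mem_range.mp hb; omega
    have e1 : uu L.q (L.q * L.q ^ L.n) (u * L.q ^ (2 * s + 2))⁻¹ (L.q ^ 2) ((L.q ^ 2) ^ (2 * s)) b
        = (u⁻¹ * (L.q ^ (2 * s + 1))⁻¹) ^ b * (MM L.q (2 * s) b u
          / MM L.q (2 * s) b (u * L.q ^ L.n)⁻¹) * (rho (L.q ^ 1) b 1
            * (rho (L.q ^ 1) b (L.q ^ L.n) * rho (L.q ^ 1) b (L.q ^ L.n)⁻¹)) := by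
      rw [← card_range b, ← prod_const, card_range, rho, rho, rho, MM, MM, ← prod_div_distrib,
        ← prod_mul_distrib, ← prod_mul_distrib, ← prod_mul_distrib, ← prod_mul_distrib, uu]
      refine prod_congr rfl fun i _ => ?_
      rw [← mul_div_assoc (u⁻¹ * _), e3]
      simp only [div_mul_div_comm]
      rw [hn]
      refine congrArg₂ (fun x y : K => x / y) ?_ ?_ <;> field_simp <;> ring
    refine ((rho_pair hn (hs1 hn) (b := b) (by omega) Q).symm.smul (mul_mem (mul_mem (mul_mem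
      (sub_mem (one_mem _) (L.qp (4 * b + 1))) (rho_TG hn (hs1 hn) (b := b) (by omega)).1)
        (U.q.pow ((2 * s + 1) * b)).2.1) (mul_mem (div_mem' (hM b hb' _ _ hu).1
          (hM b hb' _ _ (hu.mul Q).inv)) (pow_mem hu.inv.U.1 b)))).of_sub ?_
    rw [e1, tt, mul_pow u⁻¹, inv_pow (L.q ^ _), ← pow_mul]
    ring
  · rw [this, prod_div_distrib, prod_mul_distrib, prod_mul_distrib]
    have z1 : L.E 1 (∏ i ∈ range (2 * s), (1 - L.q * (L.q ^ 2 * (L.q ^ 2) ^ i))) 0 := by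
      rw [← mul_prod_erase _ _ (show 2 * s - 1 ∈ range (2 * s) from mem_range.mpr (by omega))]
      refine (Q.near.neg.smul (prod_mem (t := (range (2 * s)).erase (2 * s - 1)) fun i _ =>
        sub_mem (one_mem _) (mul_mem L.hq (mul_mem (L.qp 2) (pow_mem (L.qp 2) i))))).of_sub ?_
      rw [show L.n = 3 + 2 * (2 * s - 1) by omega]; ring
    have z2 : L.E 1 (∏ i ∈ range (2 * s), (1 - L.q * (u * L.q ^ (2 * s + 2))⁻¹
        * (L.q ^ 2 * (L.q ^ 2) ^ i) / (L.q * L.q ^ L.n))) 0 := by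
      rw [← mul_prod_erase _ _ (show s ∈ range (2 * s) from mem_range.mpr (by omega))]
      refine ((hu.mul Q).inv.near.neg.smul (prod_mem (t := (range (2 * s)).erase s) fun i _ =>
        sub_mem (one_mem _) (div_mem' (mul_mem (mul_mem L.hq (hu.U.mul (U.q.pow (2 * s + 2))).2.1)
          (mul_mem (L.qp 2) (pow_mem (L.qp 2) i))) (U.q.mul Q.U)))).of_sub ?_
      generalize ∏ i ∈ (range (2 * s)).erase s, (1 - L.q * (u * L.q ^ (2 * s + 2))⁻¹
        * (L.q ^ 2 * (L.q ^ 2) ^ i) / (L.q * L.q ^ L.n)) = P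
      field_simp
      ring
    have u1 : L.U (∏ i ∈ range (2 * s), (1 - L.q * (L.q ^ 2 * (L.q ^ 2) ^ i) / (L.q * L.q ^ L.n))) :=
      U.prod _ _ fun i hi => by
        rw [e2]
        exact Q.inv.lin (by
          simpa using nd1 hn (hs1 hn) (i := i) (by have := mem_range.mp hi; omega))
    have u2 : L.U (∏ i ∈ range (2 * s), (1 - L.q * (u * L.q ^ (2 * s + 2))⁻¹
        * (L.q ^ 2 * (L.q ^ 2) ^ i))) :=
      U.prod _ _ fun i hi => by rw [e3]; exact (hu.mul Q).inv.lin (nM i (mem_range.mp hi))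
    exact ((z1.mul_zero z2).smul (div_mem' (sub_mem (one_mem _) L.hq) (u1.mul u2))).of_sub (by ring)

theorem main (hs : 0 < s) : L.E 2 (S L.q L.n) 0 := by
  have hU : L.U (1 - L.q) := by
    simpa using U.sub (L := L) (j := 1) (by rw [Nat.dvd_one]; omega)
  have q0 := L.q0
  have Q := N3.nr (N3.qn (L := L))
  have u2 : L.U 2 := by simpa using U.nat (L := L) (a := 2) (by norm_num)
  have k1 := six hn hs Nr.one fun i h => by
    have : L.q ^ L.n = L.q ^ (2 * s + 2 + 2 * i) := by field_simp at h; linear_combination h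
    have := q_inj this; omega
  have k2 := six hn hs Q.inv fun i => by
    rw [inv_mul_cancel₀ Q.U.2.2, inv_one, one_mul]; exact L.ne _ (by omega)
  have k3 : L.E 1 (∑ b ∈ range (2 * s + 1), (b * (2 * s - b) : K) * tt L.q (2 * s) b 1) 0 := by
    have h1 : L.E 1 (∑ b ∈ range (2 * s + 1), (((2 * s + 1 - 1 - b : ℕ) : K)
        * (2 * s - (2 * s + 1 - 1 - b : ℕ))) * tt L.q (2 * s) (2 * s + 1 - 1 - b) 1)
        (∑ b ∈ range (2 * s + 1), -((b * (2 * s - b) : K) * tt L.q (2 * s) b 1)) := by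
      refine E.sum _ fun b hb => ?_
      obtain ⟨d, hd⟩ : ∃ d, d + b = 2 * s := ⟨2 * s - b, by have := mem_range.mp hb; omega⟩
      have : (2 * s : K) = d + b := by exact_mod_cast hd.symm
      rw [show 2 * s + 1 - 1 - b = d by omega, this]
      exact ((tt_refl hn hd).smul (mul_mem (L.nat_mem d) (L.nat_mem b))).of_sub (by ring)
    rw [sum_range_reflect (fun b => (b * (2 * s - b) : K) * tt L.q (2 * s) b 1),
      sum_neg_distrib] at h1
    exact E.cancel (h1.of_sub (by ring)) u2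
  have k4 := (k1.add k2).add k3.e_mul
  rw [mul_sum, ← sum_add_distrib, ← sum_add_distrib] at k4
  refine E.cancel (z := 2 * (1 - L.q)) (E.trans ?_ (k4.trans (E.of_eq (by ring)))) (u2.mul hU)
  rw [S, show (L.n - 1) / 2 = 2 * s by omega, mul_sum]
  refine E.sum _ fun b hb => ?_
  have hb' : b ≤ 2 * s := by have := mem_range.mp hb; omega
  obtain ⟨d, hd⟩ : ∃ d, d + b = 2 * s := ⟨2 * s - b, by omega⟩
  obtain ⟨m, hm⟩ : ∃ m, b * (d + 1) = 2 * m := by
    have : Even (b * (d + 1)) := by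
      rw [Nat.even_mul, Nat.even_add_one, Nat.even_iff, Nat.even_iff]; omega
    exact ⟨_, (Nat.two_mul_div_two_of_even this).symm⟩
  have e1 : ex L.n b = (L.n * m : ℕ) - ((2 * s + 1) * b : ℕ) := by
    have h1 : (b : ℤ) * (d + 1) = 2 * m := by exact_mod_cast hm
    have h2 : (d : ℤ) + b = 2 * s := by exact_mod_cast hd
    rw [ex, hn]
    refine Int.ediv_eq_of_eq_mul_right (by norm_num) ?_
    push_cast
    linear_combination (2 * (4 * s + 1)) * h1 - (2 * b * (4 * s + 1)) * h2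
  have nM : ∀ i, i < 2 * s → ¬ L.n ∣ 2 * s + 2 + 2 * i := by
    rintro i hi ⟨c, hc⟩
    rcases c with _ | _ | c
    · omega
    · omega
    · rw [hn] at hc; nlinarith
  have hM : ∀ y c, Nr L y c → L.U (MM L.q (2 * s) b y) := fun y c hy =>
    U.prod _ _ fun i hi => hy.lin (nM i (by have := mem_range.mp hi; omega))
  obtain ⟨l, -, hl⟩ := TG_nr (f := MM L.q (2 * s) b) (TG.prod _ fun _ _ => TG.lin) (hM _ _ Nr.one)
  have x1 := hl _ _ Q.inv
  have h1 : (b : K) * (d + 1) = 2 * m := by exact_mod_cast hm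
  have h2 : (2 * s : K) = d + b := by exact_mod_cast hd.symm
  refine (((((Nr.qn m).2.smul u2.1).sub x1.inv.2).sub (x1.mul (Nr.qn b)).2).smul
    (tt_TG hn (b := b) (by omega)).1).of_sub ?_
  rw [e1, zpow_sub₀ q0, zpow_natCast, zpow_natCast, poch_rho, qint, h2, pow_mul,
    inv_mul_cancel₀ Q.U.2.2, tt]
  have := hU.2.2
  simp only [one_mul, inv_div, inv_inv, inv_one]
  generalize MM L.q (2 * s) b 1 / MM L.q (2 * s) b (L.q ^ L.n)⁻¹ = A
  generalize MM L.q (2 * s) b (L.q ^ L.n)⁻¹ / MM L.q (2 * s) b 1 = B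
  field_simp
  linear_combination (-(L.e * (1 - L.q ^ (4 * b + 1)) * rho L.q b 1 ^ 3)) * h1

omit hn in
theorem result : (∀ n : ℕ, n % 4 = 1 → 1 < n → Zero2 n (S RatFunc.X n)) ∧
    ¬ Zero2 1 (S RatFunc.X 1) := by
  constructor
  · intro n h4 h1
    have := cyc_out' (by omega) (main (L := cycL n (by omega)) (s := n / 4)
      (show n = _ by omega) (by omega))
    rwa [sub_zero] at this
  · rintro ⟨hP, -⟩
    have h1 : (1 - RatFunc.X : RatFunc ℚ) ≠ 0 := by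
      have := (cycL 1 one_pos).ne 1 one_pos
      rwa [pow_one] at this
    have e : (S RatFunc.X 1 : RatFunc ℚ) = 1 := by simp [S, qint, poch, ex, div_self h1]
    rw [e, RatFunc.num_one] at hP
    exact (cyclotomic.irreducible_rat one_pos).not_isUnit
      (isUnit_of_dvd_one ((dvd_pow_self _ two_ne_zero).trans hP))

end Pool.Agent.Results.MP_b125a4_nt.Guo
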